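import Pool.Agent.H83.SK.Tor
import Pool.Agent.H29.Sep.Iface
import Pool.Agent.H59.EX.Defs

/-!
# Site percolation: interfaces of the separation part

Everything is for densities `q` with `RSWreg c n q`; constants depend only on `c`.
-/

open MeasureTheory ProbabilityTheory unitInterval

namespace Pool.Agent.H83.SK

open Pool.Agent.H89.Perc Pool.Agent.H29.Sep
open Pool.Agent.H59.EX (Src Four)

/-- The four edges at the origin. -/
def star0 : Finset Edge :=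
  {((0, 0, false) : Edge), ((0, 0, true) : Edge), ((-1, 0, false) : Edge), ((0, -1, true) : Edge)}

/-- The site `0` as a source: two of its neighbours (opposite for `b = false`, adjacent for
`b = true`), the four edges at `0` are closed. -/
def s4 (b : Bool) : Src where
  x := (1, 0)
  y := if b then (0, 1) else (-1, 0)
  E0 := star0
  hx := by simp [ball, rect]
  hy := by cases b <;> simp [ball, rect]
  hE := by
    intro e he
    simp only [star0, Finset.mem_insert, Finset.mem_singleton] at he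
    rcases he with rfl | rfl | rfl | rfl <;> simp [ball, rect, src, tgt]

/-- Four-arm probability of the site `0`: with the site `0` closed, two given neighbours of `0` are
joined to distance `r` and not joined to each other (sum over the two kinds of pairs). -/
noncomputable def a4 (q : I) (r : ℕ) : ℝ :=
  Pr q (Four (s4 false) r) + Pr q (Four (s4 true) r)

/-- S1, inner side. -/
def BadIn : Prop :=
  ∀ c : ℝ, 0 < c → ∃ C κ : ℝ, 0 < C ∧ 0 < κ ∧ ∀ (n t ρ r : ℕ) (q : I), 1 ≤ t → t ≤ ρ →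
    2 * ρ ≤ r → r ≤ n → RSWreg c n q →
      Pr q {ω | ∃ z ∈ sphere 0 r, ω ∈ LocTwo (ball 0 r) z t ρ} ≤
        C * ((r : ℝ) / ρ) * ((t : ℝ) / ρ) ^ κ

/-- S1, outer side. -/
def BadOut : Prop :=
  ∀ c : ℝ, 0 < c → ∃ C κ : ℝ, 0 < C ∧ 0 < κ ∧ ∀ (n t ρ r : ℕ) (q : I), 1 ≤ t → t ≤ ρ →
    2 * ρ ≤ r → r ≤ n → RSWreg c n q →
      Pr q {ω | ∃ z ∈ sphere 0 r, ω ∈ LocTwo (ball 0 (r - 1))ᶜ z t ρ} ≤
        C * ((r : ℝ) / ρ) * ((t : ℝ) / ρ) ^ κ

/-- S4: gluing with terminals. -/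
def GLT : Prop :=
  ∀ c ε : ℝ, 0 < c → 0 < ε → ∃ (C : ℝ) (k₀ : ℕ), 0 < C ∧ 1 ≤ k₀ ∧
    ∀ (n k R : ℕ) (q : I) (L K : Set Vert), k₀ ≤ k → 64 * 4 ^ k ≤ R → R ≤ n → RSWreg c n q →
      L ⊆ sphere 0 R → K ⊆ sphere 0 R →
      a4 q (4 ^ k) * Pr q (BT (4 * 4 ^ k) R L K) ≤
        C * a4 q R + ε * (a4 q (4 ^ (k - 1)) * Pr q (BT (16 * 4 ^ k) R L K))

/-- S3: regularity of the four-arm probability. -/
def RegA4 : Prop :=
  ∀ c : ℝ, 0 < c → ∃ C : ℝ, 0 < C ∧ ∀ (n r : ℕ) (q : I), 1 ≤ r → 64 * r ≤ n → RSWreg c n q →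
    a4 q r ≤ C * a4 q (4 * r)

/-- S2 + S3: four arms at scale `N / 64` cost at most a pivotal site of the torus. -/
def SepTorus : Prop :=
  ∀ c : ℝ, 0 < c → ∃ C : ℝ, 0 < C ∧ ∀ (N r : ℕ) (q : I), 1 ≤ r → N ≤ 64 * r →
    4 * r ≤ N → RSWreg c N q → a4 q r ≤ C * sT q N

/-- S5: quasi-multiplicativity for the planar annulus. -/
def QMann : Prop :=
  ∀ c : ℝ, 0 < c → ∃ C : ℝ, 0 < C ∧ ∀ (n r R : ℕ) (q : I), 1 ≤ r → 16 * r ≤ R → 64 * R ≤ n →
    RSWreg c n q → a4 q r * Pr q (A2 (16 * r) R) ≤ C * a4 q R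

/-- Separation and gluing, torus version. -/
def GLTorus : Prop :=
  ∀ c : ℝ, 0 < c → ∃ C : ℝ, 0 < C ∧ ∀ (N r : ℕ) (q : I), 1 ≤ r → 64 * r ≤ N →
    RSWreg c N q → a4 q r * Pool.Agent.H89.Perc.Pr q (BlockPiv N (16 * r)) ≤ C * sT q N

/-- Block OSSS on the torus. -/
def BlockLow : Prop :=
  ∀ c : ℝ, 0 < c → ∃ C δ : ℝ, 0 < C ∧ 0 < δ ∧ ∀ (N r : ℕ) (q : I), 1 ≤ r → 4 * r ≤ N →
    RSWreg c N q → ((r : ℝ) / N) ^ (2 - δ) ≤ C * Pool.Agent.H89.Perc.Pr q (BlockPiv N r)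

end Pool.Agent.H83.SK
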