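import Pool.Agent.H89.Perc.Symm

/-!
# Site percolation through the induced bond configuration

Site configurations are stored at the edges `(x, y, false)` of the lattice. `sit ω` is the induced
bond configuration: an edge is open if both endpoints are open sites. `Pr p A` is the probability
that the induced configuration is in `A`, when the sites are open with probability `p`.
-/

set_option autoImplicit false

open MeasureTheory ProbabilityTheory unitInterval

namespace Pool.Agent.H83.SK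

open Pool.Agent.H89.Perc

/-- The coordinate of a site. -/
def sv (v : Vert) : Edge := (v.1, v.2, false)

/-- The induced bond configuration. -/
def sit (ω : Config) : Config := fun e => ω (sv (src e)) && ω (sv (tgt e))

/-- Probability for site percolation. -/
noncomputable def Pr (p : I) (A : Set Config) : ℝ := Pool.Agent.H89.Perc.Pr p {ω | sit ω ∈ A}

/-- The sites of a set of edges. -/
noncomputable def hull (s : Finset Edge) : Finset Edge := by
  classical exact s.image (fun e => sv (src e)) ∪ s.image (fun e => sv (tgt e))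

variable {s t : Finset Edge} {A B : Set Config} {p q : I}

theorem sit_true {ω : Config} {e : Edge} :
    sit ω e = true ↔ ω (sv (src e)) = true ∧ ω (sv (tgt e)) = true := by
  simp [sit]

theorem mem_hull {s : Finset Edge} {g : Edge} :
    g ∈ hull s ↔ ∃ e ∈ s, g = sv (src e) ∨ g = sv (tgt e) := by
  classical
  unfold hull
  simp only [Finset.mem_union, Finset.mem_image]
  constructor
  · rintro (⟨e, he, rfl⟩ | ⟨e, he, rfl⟩)
    · exact ⟨e, he, Or.inl rfl⟩
    · exact ⟨e, he, Or.inr rfl⟩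
  · rintro ⟨e, he, rfl | rfl⟩
    · exact Or.inl ⟨e, he, rfl⟩
    · exact Or.inr ⟨e, he, rfl⟩

theorem hull_mono {s t : Finset Edge} (h : s ⊆ t) : hull s ⊆ hull t := by
  intro g hg
  rw [mem_hull] at hg ⊢
  obtain ⟨e, he, h'⟩ := hg
  exact ⟨e, h he, h'⟩

theorem sv_injective : Function.Injective sv := by
  rintro ⟨a, b⟩ ⟨c, d⟩ h
  simpa [sv] using h

theorem disj_hull {s t : Finset Edge}
    (h : ∀ e ∈ s, ∀ f ∈ t, src e ≠ src f ∧ src e ≠ tgt f ∧ tgt e ≠ src f ∧ tgt e ≠ tgt f) :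
    Disjoint (hull s) (hull t) := by
  rw [Finset.disjoint_left]
  intro g h1 h2
  rw [mem_hull] at h1 h2
  obtain ⟨e, he, h1⟩ := h1
  obtain ⟨f, hf, h2⟩ := h2
  obtain ⟨k1, k2, k3, k4⟩ := h e he f hf
  rcases h1 with rfl | rfl <;> rcases h2 with h2 | h2
  · exact k1 (sv_injective h2)
  · exact k2 (sv_injective h2)
  · exact k3 (sv_injective h2)
  · exact k4 (sv_injective h2)

/-- Disjointness through a separating set of vertices. -/
theorem disj_hull_of {s t : Finset Edge} {S : Set Vert} (h1 : ∀ e ∈ s, src e ∈ S ∧ tgt e ∈ S)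
    (h2 : ∀ e ∈ t, src e ∉ S ∧ tgt e ∉ S) : Disjoint (hull s) (hull t) := by
  refine disj_hull fun e he f hf => ?_
  obtain ⟨a1, a2⟩ := h1 e he
  obtain ⟨b1, b2⟩ := h2 f hf
  exact ⟨fun h => b1 (h ▸ a1), fun h => b2 (h ▸ a1), fun h => b1 (h ▸ a2), fun h => b2 (h ▸ a2)⟩

theorem localOn_sit (h : LocalOn s A) : LocalOn (hull s) {ω | sit ω ∈ A} := by
  intro ω ω' hω hA
  refine h _ _ (fun e he => ?_) hA
  have h1 : sv (src e) ∈ hull s := mem_hull.2 ⟨e, he, Or.inl rfl⟩
  have h2 : sv (tgt e) ∈ hull s := mem_hull.2 ⟨e, he, Or.inr rfl⟩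
  simp only [sit]
  rw [hω _ h1, hω _ h2]

theorem sit_mono {ω ω' : Config} (h : ∀ e, ω e = true → ω' e = true) :
    ∀ e, sit ω e = true → sit ω' e = true := by
  intro e he
  rw [sit_true] at he ⊢
  exact ⟨h _ he.1, h _ he.2⟩

theorem incr_sit (h : Incr A) : Incr {ω | sit ω ∈ A} :=
  fun _ _ hω hA => h _ _ (sit_mono hω) hA

theorem incr_sit_compl (h : Incr Aᶜ) : Incr {ω | sit ω ∈ A}ᶜ :=
  fun _ _ hω hA => h _ _ (sit_mono hω) hA

theorem Pr_nonneg : 0 ≤ Pr p A := Pool.Agent.H89.Perc.Pr_nonneg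

theorem Pr_le_one : Pr p A ≤ 1 := Pool.Agent.H89.Perc.Pr_le_one

theorem Pr_mono (h : A ⊆ B) : Pr p A ≤ Pr p B :=
  Pool.Agent.H89.Perc.Pr_mono fun _ hω => h hω

theorem Pr_union_le : Pr p (A ∪ B) ≤ Pr p A + Pr p B := by
  unfold Pr
  exact Pool.Agent.H89.Perc.Pr_union_le (A := {ω | sit ω ∈ A}) (B := {ω | sit ω ∈ B})

theorem Pr_univ : Pr p Set.univ = 1 := by
  unfold Pr
  have : {ω : Config | sit ω ∈ (Set.univ : Set Config)} = Set.univ := by ext ω; simp
  rw [this, Pool.Agent.H89.Perc.Pr_univ]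

theorem Pr_empty : Pr p (∅ : Set Config) = 0 := by
  unfold Pr
  have : {ω : Config | sit ω ∈ (∅ : Set Config)} = ∅ := by ext ω; simp
  rw [this]
  simp [Pool.Agent.H89.Perc.Pr]

theorem Pr_compl (h : LocalOn s A) : Pr p Aᶜ = 1 - Pr p A := by
  unfold Pr
  exact Pool.Agent.H89.Perc.Pr_compl (localOn_sit h)

theorem Pr_biUnion_le {ι : Type*} (F : Finset ι) (A : ι → Set Config) :
    Pr p (⋃ i ∈ F, A i) ≤ ∑ i ∈ F, Pr p (A i) := by
  unfold Pr
  have h : {ω | sit ω ∈ ⋃ i ∈ F, A i} = ⋃ i ∈ F, {ω | sit ω ∈ A i} := by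
    ext ω
    simp
  rw [h]
  exact Pool.Agent.H89.Perc.Pr_biUnion_le F _

/-- Probability of a disjoint union of local events. -/
theorem Pr_biUnion {ι : Type*} (F : Finset ι) (A : ι → Set Config)
    (t : ι → Finset Edge) (hA : ∀ i ∈ F, LocalOn (t i) (A i))
    (hd : ∀ i ∈ F, ∀ j ∈ F, i ≠ j → Disjoint (A i) (A j)) :
    Pr p (⋃ i ∈ F, A i) = ∑ i ∈ F, Pr p (A i) := by
  unfold Pr
  have h : {ω | sit ω ∈ ⋃ i ∈ F, A i} = ⋃ i ∈ F, {ω | sit ω ∈ A i} := by
    ext ω
    simp
  rw [h]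
  refine measureReal_biUnion_finset (fun i hi j hj hij => ?_)
    (fun i hi => (localOn_sit (hA i hi)).measurableSet)
  rw [Function.onFun, Set.disjoint_left]
  intro ω h1 h2
  exact Set.disjoint_left.1 (hd i hi j hj hij) h1 h2

/-- Events depending on edges without a common vertex are independent. -/
theorem Pr_inter_of_disjoint (hA : LocalOn s A) (hB : LocalOn t B)
    (hst : Disjoint (hull s) (hull t)) : Pr p (A ∩ B) = Pr p A * Pr p B := by
  unfold Pr
  exact Pool.Agent.H89.Perc.Pr_inter_of_disjoint (localOn_sit hA) (localOn_sit hB) hst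

/-- Harris inequality for two increasing local events. -/
theorem fkg (hA : LocalOn s A) (hB : LocalOn t B) (iA : Incr A) (iB : Incr B) :
    Pr p A * Pr p B ≤ Pr p (A ∩ B) := by
  unfold Pr
  exact Pool.Agent.H89.Perc.fkg (localOn_sit hA) (localOn_sit hB) (incr_sit iA) (incr_sit iB)

/-- Harris inequality for two decreasing local events. -/
theorem fkg_decr (hA : LocalOn s A) (hB : LocalOn t B) (iA : Incr Aᶜ) (iB : Incr Bᶜ) :
    Pr p A * Pr p B ≤ Pr p (A ∩ B) := by
  unfold Pr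
  exact Pool.Agent.H89.Perc.fkg_decr (localOn_sit hA) (localOn_sit hB) (incr_sit_compl iA)
    (incr_sit_compl iB)

/-- Harris inequality: an increasing and a decreasing local event are negatively correlated. -/
theorem fkg_mixed (hA : LocalOn s A) (hB : LocalOn t B) (iA : Incr A) (iB : Incr Bᶜ) :
    Pr p (A ∩ B) ≤ Pr p A * Pr p B := by
  unfold Pr
  exact Pool.Agent.H89.Perc.fkg_mixed (localOn_sit hA) (localOn_sit hB) (incr_sit iA)
    (incr_sit_compl iB)

/-- The probability of an increasing local event is nondecreasing in the density. -/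
theorem Pr_mono_param (hA : LocalOn s A) (iA : Incr A) (hpq : p ≤ q) : Pr p A ≤ Pr q A := by
  unfold Pr
  exact Pool.Agent.H89.Perc.Pr_mono_param (localOn_sit hA) (incr_sit iA) hpq

/-! ### Symmetries -/

/-- An edge map which comes from an injective map of the vertices. -/
def IsAut (φ : Edge → Edge) : Prop :=
  ∃ f : Vert → Vert, Function.Injective f ∧ ∀ e,
    (src (φ e) = f (src e) ∧ tgt (φ e) = f (tgt e)) ∨ (src (φ e) = f (tgt e) ∧ tgt (φ e) = f (src e))

theorem Pr_comp (hA : LocalOn s A) {φ : Edge → Edge} (hφ : IsAut φ) :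
    Pr p {ω | (fun e => ω (φ e)) ∈ A} = Pr p A := by
  obtain ⟨f, hf, h⟩ := hφ
  unfold Pr
  have h1 : {ω : Config | sit ω ∈ {ω | (fun e => ω (φ e)) ∈ A}} =
      {ω : Config | (fun e => ω (sv (f (src e)))) ∈ {ω | sit ω ∈ A}} := by
    ext ω
    have h2 : (fun e => sit ω (φ e)) = sit (fun e => ω (sv (f (src e)))) := by
      funext e
      simp only [sit]
      have e1 : src (sv (src e)) = src e := rfl
      have e2 : src (sv (tgt e)) = tgt e := rfl
      rcases h e with ⟨h3, h4⟩ | ⟨h3, h4⟩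
      · rw [h3, h4, e1, e2]
      · rw [h3, h4, e1, e2, Bool.and_comm]
    simp only [Set.mem_ofPred_eq]
    rw [h2]
  rw [h1]
  refine Pool.Agent.H89.Perc.Pr_comp (s := hull s) (localOn_sit hA)
    (φ := fun e => sv (f (src e))) ?_
  intro a ha b hb hab
  have hab' : f (src a) = f (src b) := sv_injective hab
  have hsrc := hf hab'
  have ha' := mem_hull.1 ha
  have hb' := mem_hull.1 hb
  have key : ∀ g : Edge, (∃ e ∈ s, g = sv (src e) ∨ g = sv (tgt e)) → g = sv (src g) := by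
    rintro g ⟨e, -, rfl | rfl⟩ <;> rfl
  rw [key a ha', key b hb', hsrc]

theorem isAut_shift (z : Vert) : IsAut (shiftE z) := by
  refine ⟨fun w => (w.1 + z.1, w.2 + z.2), ?_, ?_⟩
  · rintro ⟨a, b⟩ ⟨c, d⟩ h
    simpa using h
  · rintro ⟨x, y, t⟩
    left
    refine ⟨rfl, ?_⟩
    cases t
    · simp only [tgt, shiftE]
      ext <;> (simp; try ring)
    · simp only [tgt, shiftE]
      ext <;> (simp; try ring)

theorem isAut_swap : IsAut swapE := by
  refine ⟨fun w => (w.2, w.1), ?_, ?_⟩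
  · rintro ⟨a, b⟩ ⟨c, d⟩ h
    simp only [Prod.mk.injEq] at h ⊢
    exact ⟨h.2, h.1⟩
  · rintro ⟨x, y, t⟩
    left
    cases t <;> exact ⟨rfl, rfl⟩

theorem isAut_reflX (z : ℤ) : IsAut (reflX z) := by
  refine ⟨fun w => (z - w.1, w.2), ?_, ?_⟩
  · rintro ⟨a, b⟩ ⟨c, d⟩ h
    simp only [Prod.mk.injEq] at h ⊢
    exact ⟨by omega, h.2⟩
  · rintro ⟨x, y, t⟩
    cases t
    · right
      refine ⟨?_, ?_⟩ <;> ext <;> simp [reflX, src, tgt] <;> ring
    · left
      refine ⟨?_, ?_⟩ <;> ext <;> simp [reflX, src, tgt]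

theorem isAut_reflY (z : ℤ) : IsAut (reflY z) := by
  refine ⟨fun w => (w.1, z - w.2), ?_, ?_⟩
  · rintro ⟨a, b⟩ ⟨c, d⟩ h
    simp only [Prod.mk.injEq] at h ⊢
    exact ⟨h.1, by omega⟩
  · rintro ⟨x, y, t⟩
    cases t
    · left
      refine ⟨?_, ?_⟩ <;> ext <;> simp [reflY, src, tgt]
    · right
      refine ⟨?_, ?_⟩ <;> ext <;> simp [reflY, src, tgt] <;> ring

theorem IsAut.comp {φ ψ : Edge → Edge} (hφ : IsAut φ) (hψ : IsAut ψ) : IsAut (fun e => φ (ψ e)) := by
  obtain ⟨f, hf, h⟩ := hφ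
  obtain ⟨g, hg, h'⟩ := hψ
  refine ⟨fun w => f (g w), fun a b hab => hg (hf hab), fun e => ?_⟩
  rcases h (ψ e) with ⟨h1, h2⟩ | ⟨h1, h2⟩ <;> rcases h' e with ⟨h3, h4⟩ | ⟨h3, h4⟩
  · left; rw [h1, h2, h3, h4]; exact ⟨rfl, rfl⟩
  · right; rw [h1, h2, h3, h4]; exact ⟨rfl, rfl⟩
  · right; rw [h1, h2, h3, h4]; exact ⟨rfl, rfl⟩
  · left; rw [h1, h2, h3, h4]; exact ⟨rfl, rfl⟩

theorem Pr_hcross_translate {a b c d : ℤ} (x y : ℤ) :
    Pr p {ω | HCross ω (a + x) (b + x) (c + y) (d + y)} = Pr p {ω | HCross ω a b c d} := by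
  rw [← Pr_comp (localOn_hcross a b c d) (isAut_shift (x, y))]
  congr 1
  ext ω
  exact (hcross_shift x y).symm

theorem Pr_vcross_translate {a b c d : ℤ} (x y : ℤ) :
    Pr p {ω | VCross ω (a + x) (b + x) (c + y) (d + y)} = Pr p {ω | VCross ω a b c d} := by
  rw [← Pr_comp (localOn_vcross a b c d) (isAut_shift (x, y))]
  congr 1
  ext ω
  exact (vcross_shift x y).symm

theorem Pr_vcross_eq_hcross {a b c d : ℤ} :
    Pr p {ω | VCross ω c d a b} = Pr p {ω | HCross ω a b c d} := by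
  rw [← Pr_comp (localOn_vcross c d a b) isAut_swap]
  congr 1
  ext ω
  exact vcross_swap

/-! ### One-arm events -/

/-- One-arm probability at the origin. -/
noncomputable def arm (p : I) (r : ℕ) : ℝ := Pr p (Arm 0 r)

theorem Pr_arm (v : Vert) (r : ℕ) : Pr p (Arm v r) = arm p r := by
  rw [← arm_shift v r, Pr_comp (localOn_arm 0 r) (isAut_shift v), arm]

theorem Pr_armBox (v : Vert) (k r : ℕ) : Pr p (ArmBox v k r) = Pr p (ArmBox 0 k r) := by
  rw [← armBox_shift v k r, Pr_comp (localOn_armBox 0 k r) (isAut_shift v)]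

/-- The one-arm probability is nonincreasing in the radius. -/
theorem arm_antitone {r r' : ℕ} (h : r ≤ r') : arm p r' ≤ arm p r := by
  refine Pr_mono ?_
  rintro ω ⟨u, hu, hc⟩
  refine hc.mem_arm ?_
  have h0 : ((0 : Vert).1) = 0 := rfl
  have h1 : ((0 : Vert).2) = 0 := rfl
  obtain ⟨hb, hs⟩ := hu
  simp only [mem_ball, h0, h1] at hb hs
  rw [h0, h1]
  rcases abs_cases (u.1 - 0) with h3 | h3 <;> rcases abs_cases (u.2 - 0) with h4 | h4 <;> omega

theorem arm_nonneg {r : ℕ} : 0 ≤ arm p r := Pr_nonneg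

theorem arm_le_one {r : ℕ} : arm p r ≤ 1 := Pr_le_one

theorem arm_mono_param (r : ℕ) (hpq : p ≤ q) : arm p r ≤ arm q r :=
  Pr_mono_param (localOn_arm 0 r) (incr_arm 0 r) hpq

/-! ### The box-crossing regime -/

/-- Box-crossing regime: for all scales up to `n`, open crossings of `4 : 1` rectangles in the long
direction, and absence of open crossings in the short direction, have probability at least `c`. -/
def RSWreg (c : ℝ) (n : ℕ) (q : I) : Prop :=
  ∀ m : ℕ, 1 ≤ m → m ≤ n → c ≤ Pr q {ω | HCross ω 0 (4 * m) 0 m} ∧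
    c ≤ Pr q {ω | ¬ VCross ω 0 (4 * m) 0 m}

theorem rswreg_mono {c : ℝ} {n m : ℕ} {q : I} (h : RSWreg c n q) (hm : m ≤ n) :
    RSWreg c m q := fun k h1 h2 => h k h1 (h2.trans hm)

end Pool.Agent.H83.SK
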