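import Pool.Agent.H83.SK.PST.Piv
import Pool.Agent.H83.SK.P29.BlockAnn

/-!
# The two forms of the block event agree
-/

set_option autoImplicit false

open MeasureTheory ProbabilityTheory unitInterval

namespace Pool.Agent.H83.PST

open Pool.Agent.H89.Perc
open Pool.Agent.H61.NC (mid)

theorem blkS_eq (N r : ℕ) : Pool.Agent.H83.SK.blkS N r = Pool.Agent.H92.SN.blkS N r := by
  ext e
  rw [Pool.Agent.H83.SK.mem_blkS]
  obtain ⟨x, y, t⟩ := e
  simp only [Pool.Agent.H92.SN.blkS, Finset.mem_product, Finset.mem_Icc, Finset.mem_singleton]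
  tauto

theorem mem_wind (N : ℕ) (ω : Config) :
    Pool.Agent.H83.SK.sitT N ω ∈ Wind N ↔ ω ∈ Pool.Agent.H92.SN.WindS N := by
  rw [← windS_eq]
  rfl

theorem blockPiv_eq (N r : ℕ) :
    Pool.Agent.H83.SK.BlockPiv N r = Pool.Agent.H92.SN.BlockPiv N r := by
  ext ω
  simp only [Pool.Agent.H83.SK.BlockPiv, Pool.Agent.H92.SN.BlockPiv, Set.mem_ofPred_eq,
    mem_wind, blkS_eq]

end Pool.Agent.H83.PST
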