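import Pool.Agent.H83.SK.Base
import Pool.Agent.H61.NC.Defs
import Pool.Agent.H90.NC.ArmDefs

/-!
# Site percolation on the torus: definitions

The sites of the torus of side `N` are the sites of the plane modulo `N`.  `sitT N ω` is the induced
periodic bond configuration.
-/

open MeasureTheory ProbabilityTheory unitInterval

namespace Pool.Agent.H83.SK

open Pool.Agent.H89.Perc Pool.Agent.H61.NC

variable {N : ℕ} {q : I} {A B : Set Config} {s t : Finset Edge}

/-- The induced bond configuration of the torus. -/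
def sitT (N : ℕ) (ω : Config) : Config := sit (per N ω)

/-- Probability for site percolation on the torus. -/
noncomputable def PrT (N : ℕ) (q : I) (A : Set Config) : ℝ :=
  Pool.Agent.H89.Perc.Pr q {ω | sitT N ω ∈ A}

theorem per_sitT (N : ℕ) (ω : Config) : per N (sitT N ω) = sitT N ω := by
  funext ⟨x, y, b⟩
  have hx : ∀ z : ℤ, (z % N + 1) % (N : ℤ) = (z + 1) % N := fun z => by
    rw [Int.emod_add_emod]
  cases b
  · simp only [sitT, per, sit, sv, src, tgt, Bool.false_eq_true, if_false, Int.emod_emod, hx]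
  · simp only [sitT, per, sit, sv, src, tgt, if_true, Int.emod_emod, hx]

theorem sitT_mono {ω ω' : Config} (h : ∀ e, ω e = true → ω' e = true) :
    ∀ e, sitT N ω e = true → sitT N ω' e = true := sit_mono (per_mono h)

theorem sitT_eq_of (hN : 1 ≤ N) {ω ω' : Config} (h : ∀ e ∈ tEdges N, ω e = ω' e) :
    sitT N ω = sitT N ω' := by
  unfold sitT
  rw [per_eq_of hN h]

/-- Every event of the torus is local. -/
theorem localOn_sitT (hN : 1 ≤ N) (A : Set Config) : LocalOn (tEdges N) {ω | sitT N ω ∈ A} := by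
  intro ω ω' h hω
  have := sitT_eq_of hN h
  simp only [Set.mem_ofPred_eq] at hω ⊢
  rwa [← this]

theorem incr_sitT (h : Incr A) : Incr {ω | sitT N ω ∈ A} := fun _ _ hω hA => h _ _ (sitT_mono hω) hA

theorem incr_sitT_compl (h : Incr Aᶜ) : Incr {ω | sitT N ω ∈ A}ᶜ :=
  fun _ _ hω hA => h _ _ (sitT_mono hω) hA

theorem PrT_nonneg : 0 ≤ PrT N q A := Pool.Agent.H89.Perc.Pr_nonneg

theorem PrT_le_one : PrT N q A ≤ 1 := Pool.Agent.H89.Perc.Pr_le_one

theorem PrT_mono (h : A ⊆ B) : PrT N q A ≤ PrT N q B :=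
  Pool.Agent.H89.Perc.Pr_mono fun _ hω => h hω

theorem PrT_union_le : PrT N q (A ∪ B) ≤ PrT N q A + PrT N q B := by
  unfold PrT
  exact Pool.Agent.H89.Perc.Pr_union_le (A := {ω | sitT N ω ∈ A}) (B := {ω | sitT N ω ∈ B})

theorem PrT_compl (hN : 1 ≤ N) : PrT N q Aᶜ = 1 - PrT N q A := by
  unfold PrT
  exact Pool.Agent.H89.Perc.Pr_compl (localOn_sitT hN A)

theorem PrT_fkg (hN : 1 ≤ N) (iA : Incr A) (iB : Incr B) :
    PrT N q A * PrT N q B ≤ PrT N q (A ∩ B) := by
  unfold PrT
  exact Pool.Agent.H89.Perc.fkg (localOn_sitT hN A) (localOn_sitT hN B) (incr_sitT iA)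
    (incr_sitT iB)

theorem PrT_fkg_decr (hN : 1 ≤ N) (iA : Incr Aᶜ) (iB : Incr Bᶜ) :
    PrT N q A * PrT N q B ≤ PrT N q (A ∩ B) := by
  unfold PrT
  exact Pool.Agent.H89.Perc.fkg_decr (localOn_sitT hN A) (localOn_sitT hN B) (incr_sitT_compl iA)
    (incr_sitT_compl iB)

/-- Reduction modulo the periods. -/
theorem sitT_eq (N : ℕ) (ω : Config) : sitT N ω = sit (fun e => ω (modE N e)) := rfl

/-- Local events of the plane whose sites are distinct modulo the periods. -/
theorem PrT_eq_Pr (hA : LocalOn s A) (hinj : Set.InjOn (modE N) (hull s : Set Edge)) :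
    PrT N q A = Pr q A := by
  unfold PrT Pr
  have h1 : {ω : Config | sitT N ω ∈ A} =
      {ω : Config | (fun e => ω (modE N e)) ∈ {ω | sit ω ∈ A}} := rfl
  rw [h1]
  exact Pool.Agent.H89.Perc.Pr_comp (s := hull s) (localOn_sit hA) (φ := modE N) hinj

/-- The influence of a site on the winding event. -/
noncomputable def sT (q : I) (N : ℕ) : ℝ := pivot q {ω | sitT N ω ∈ Wind N} (ctr N false)

/-- The sites of the block of radius `r` in the middle of the torus. -/
noncomputable def blkS (N r : ℕ) : Finset Edge := by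
  classical exact (blk N r).filter (fun e => e.2.2 = false)

/-- The block of radius `r` is pivotal for the winding event (an event of the sites). -/
def BlockPiv (N r : ℕ) : Set Config :=
  {ω | sitT N (fill (blkS N r) true ω) ∈ Wind N ∧ sitT N (fill (blkS N r) false ω) ∉ Wind N}

end Pool.Agent.H83.SK
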